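import Pool.Agent.N838.CR.Stm

/-! Laminar induction (part LAM of project CR). -/

set_option autoImplicit false

namespace Pool.Agent.N919.CR

open N838.CR Real

theorem F_zero {E : Type} [NormedAddCommGroup E] [InnerProductSpace ℂ E] (T : E →L[ℂ] E)
    (a b : ℝ) : F T a b (0 : E) = 0 := by
  simp [F]

theorem t_LAM : LAM := by
  classical
  intro hB3 hMONO E _ _ T hT C x
  have key : ∀ (n : ℕ) (C : Finset (ℝ × ℝ)), C.card = n → ∀ A B : ℝ, A < B → B < A + 2 * π →
      (∀ c ∈ C, A < c.1 ∧ c.1 < c.2 ∧ c.2 < B) →
      (∀ c ∈ C, ∀ d ∈ C, c ≠ d →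
        c.2 < d.1 ∨ d.2 < c.1 ∨ (c.1 < d.1 ∧ d.2 < c.2) ∨ (d.1 < c.1 ∧ c.2 < d.2)) →
      (∀ c ∈ C, Null T c.1 c.2 (x c)) →
      F T A B (∑ c ∈ C, x c) ≤ 0 ∧ (F T A B (∑ c ∈ C, x c) = 0 → ∀ c ∈ C, x c = 0) := by
    intro n
    induction n using Nat.strong_induction_on with
    | _ n ih =>
      intro C hCn A B hAB hB2 hC hlam hnull
      rcases C.eq_empty_or_nonempty with rfl | hne
      · simp [F_zero]
      · obtain ⟨c0, hc0, hmin⟩ := C.exists_min_image (fun c => c.1) hne
        obtain ⟨hA0, h01, h0B⟩ := hC c0 hc0
        set O := C.filter (fun d => c0.2 < d.1) with hO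
        set I := C.filter (fun d => c0.1 < d.1 ∧ d.2 < c0.2) with hI
        have hc0I : c0 ∉ I := by
          intro h
          exact lt_irrefl _ (Finset.mem_filter.1 h).2.1
        have hc0O : c0 ∉ O := by
          intro h
          exact lt_asymm h01 (Finset.mem_filter.1 h).2
        have hnot : C.filter (fun d => ¬ c0.2 < d.1) = insert c0 I := by
          ext d
          rw [Finset.mem_filter, Finset.mem_insert, hI, Finset.mem_filter]
          constructor
          · rintro ⟨hd, hd2⟩
            by_cases hdc : d = c0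
            · exact Or.inl hdc
            · refine Or.inr ⟨hd, ?_⟩
              have hm : c0.1 ≤ d.1 := hmin d hd
              have hdd := (hC d hd).2.1
              rcases hlam c0 hc0 d hd (fun h => hdc h.symm) with h | h | h | h
              · exact absurd h hd2
              · linarith
              · exact h
              · linarith [h.1]
          · rintro (rfl | ⟨hd, h1, h2⟩)
            · exact ⟨hc0, not_lt.2 h01.le⟩
            · have hdd := (hC d hd).2.1
              exact ⟨hd, not_lt.2 (by linarith)⟩
        have hsum : ∑ c ∈ C, x c = (∑ c ∈ I, x c + x c0) + ∑ c ∈ O, x c := by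
          rw [← Finset.sum_filter_add_sum_filter_not C (fun d => c0.2 < d.1) x, hnot,
            Finset.sum_insert hc0I]
          abel
        have hIsub : I ⊆ C := Finset.filter_subset _ _
        have hOsub : O ⊆ C := Finset.filter_subset _ _
        have hIcard : I.card < n := by
          rw [← hCn]
          exact Finset.card_lt_card ⟨hIsub, fun h => hc0I (h hc0)⟩
        have hOcard : O.card < n := by
          rw [← hCn]
          exact Finset.card_lt_card ⟨hOsub, fun h => hc0O (h hc0)⟩
        obtain ⟨hI1, hI2⟩ := ih I.card hIcard I rfl c0.1 c0.2 h01 (by linarith)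
          (fun c hc => ⟨(Finset.mem_filter.1 hc).2.1, (hC c (hIsub hc)).2.1,
            (Finset.mem_filter.1 hc).2.2⟩)
          (fun c hc d hd => hlam c (hIsub hc) d (hIsub hd))
          (fun c hc => hnull c (hIsub hc))
        obtain ⟨hO1, hO2⟩ := ih O.card hOcard O rfl c0.2 B h0B (by linarith)
          (fun c hc => ⟨(Finset.mem_filter.1 hc).2, (hC c (hOsub hc)).2.1,
            (hC c (hOsub hc)).2.2⟩)
          (fun c hc d hd => hlam c (hOsub hc) d (hOsub hd))
          (fun c hc => hnull c (hOsub hc))
        set vI := ∑ c ∈ I, x c with hvI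
        set vO := ∑ c ∈ O, x c with hvO
        have hnl : F T c0.1 c0.2 (vI + x c0) = F T c0.1 c0.2 vI := hnull c0 hc0 vI
        have hv0 : F T c0.1 c0.2 (vI + x c0) ≤ 0 := hnl.le.trans hI1
        have hstrict : vI + x c0 ≠ 0 → F T A c0.2 (vI + x c0) < 0 := fun h =>
          lt_of_lt_of_le (hMONO E T hT A c0.1 c0.2 hA0 h01 (by linarith) _ h) hv0
        have hle : F T A c0.2 (vI + x c0) ≤ 0 := by
          by_cases h : vI + x c0 = 0
          · rw [h, F_zero]
          · exact (hstrict h).le
        have hb := hB3 E T hT.le A c0.2 B (by linarith) h0B hB2 (vI + x c0) vO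
        rw [hsum]
        refine ⟨by linarith, fun hz => ?_⟩
        have hz1 : F T A c0.2 (vI + x c0) = 0 := le_antisymm hle (by linarith)
        have hz2 : F T c0.2 B vO = 0 := le_antisymm hO1 (by linarith)
        have hv00 : vI + x c0 = 0 := by
          by_contra h
          exact (hstrict h).ne hz1
        have hI0 : F T c0.1 c0.2 vI = 0 := by
          rw [← hnl, hv00, F_zero]
        have hxI := hI2 hI0
        have hxO := hO2 hz2
        have hvI0 : vI = 0 := Finset.sum_eq_zero hxI
        have hxc0 : x c0 = 0 := by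
          rw [hvI0, zero_add] at hv00
          exact hv00
        intro d hd
        by_cases hdO : c0.2 < d.1
        · exact hxO d (Finset.mem_filter.2 ⟨hd, hdO⟩)
        · have hd' : d ∈ C.filter (fun d => ¬ c0.2 < d.1) := Finset.mem_filter.2 ⟨hd, hdO⟩
          rw [hnot, Finset.mem_insert] at hd'
          rcases hd' with rfl | hd'
          · exact hxc0
          · exact hxI d hd'
  exact fun A B => key C.card C rfl A B

end Pool.Agent.N919.CR
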